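import Mathlib

/-!
# A stable orbit of a semigroup with bounded generator for which the resolvent condition fails

Multiplication by `-r + i ω` on the bounded continuous functions of `(ω, r) ∈ [-1, 1] × (0, 1]`, and the vector `√r`.
-/

set_option autoImplicit false

namespace Pool.Agent.Results.MP_ec63c8_an.StableOrbit

open Filter Topology MeasureTheory

/-- The quantity `∫ ‖R(a + is) x‖² ds`, with the resolvent written as a Laplace transform. -/
noncomputable def resolventIntegral {X : Type} [NormedAddCommGroup X] [NormedSpace ℂ X]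
    (T : ℝ → (X →L[ℂ] X)) (x : X) (a : ℝ) : ENNReal :=
  ∫⁻ s : ℝ, ((‖∫ t in Set.Ioi (0 : ℝ),
    Complex.exp (-(((a : ℂ) + (s : ℂ) * Complex.I) * (t : ℂ))) • T t x‖₊ : ENNReal)) ^ 2

/-- The parameter space: frequency `ω ∈ [-1,1]` and damping `r ∈ (0,1]`. -/
abbrev Om : Type := ↥(Set.Icc (-1:ℝ) 1) × ↥(Set.Ioc (0:ℝ) 1)

/-- The Banach space: bounded continuous functions on the parameter space. -/
abbrev XX : Type := BoundedContinuousFunction Om ℂ

/-- The multiplier `-r + i ω`. -/
noncomputable def lam : XX := BoundedContinuousFunction.ofNormedAddCommGroup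
  (fun p : Om => -((p.2 : ℝ) : ℂ) + ((p.1 : ℝ) : ℂ) * Complex.I) (by fun_prop) 2 (by
    rintro ⟨⟨w, hw⟩, ⟨r, hr⟩⟩
    refine (norm_add_le _ _).trans ?_
    rw [norm_neg, norm_mul, Complex.norm_I, mul_one, Complex.norm_real, Complex.norm_real,
      Real.norm_eq_abs, Real.norm_eq_abs]
    have h1 : |r| ≤ 1 := abs_le.mpr ⟨by linarith [hr.1], hr.2⟩
    have h2 : |w| ≤ 1 := abs_le.mpr ⟨hw.1, hw.2⟩
    simp only
    linarith)

theorem lam_apply (p : Om) : lam p = -((p.2 : ℝ) : ℂ) + ((p.1 : ℝ) : ℂ) * Complex.I := rfl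

/-- The vector `√r`. -/
noncomputable def vv : XX := BoundedContinuousFunction.ofNormedAddCommGroup
  (fun p : Om => ((Real.sqrt (p.2 : ℝ) : ℝ) : ℂ)) (by fun_prop) 1 (by
    rintro ⟨⟨w, hw⟩, ⟨r, hr⟩⟩
    rw [Complex.norm_real, Real.norm_eq_abs, abs_of_nonneg (Real.sqrt_nonneg _)]
    exact Real.sqrt_le_one.mpr hr.2)

theorem vv_apply (p : Om) : vv p = ((Real.sqrt (p.2 : ℝ) : ℝ) : ℂ) := rfl

/-- Evaluation at a point, as a ring homomorphism. -/
noncomputable def ev (p : Om) : XX →+* ℂ where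
  toFun f := f p
  map_one' := rfl
  map_mul' _ _ := rfl
  map_zero' := rfl
  map_add' _ _ := rfl

/-- The exponential `exp (t (-r + i ω))`. -/
noncomputable def E (t : ℝ) : XX := NormedSpace.exp ((t : ℂ) • lam)

theorem E_apply (t : ℝ) (p : Om) :
    E t p = Complex.exp ((t : ℂ) * (-((p.2 : ℝ) : ℂ) + ((p.1 : ℝ) : ℂ) * Complex.I)) := by
  have hc : Continuous (ev p) := (BoundedContinuousFunction.evalCLM ℂ p).continuous
  have := NormedSpace.map_exp (ev p) hc ((t : ℂ) • lam)
  rw [Complex.exp_eq_exp_ℂ]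
  exact this

theorem E_cont : Continuous E := by
  unfold E
  exact NormedSpace.exp_continuous.comp (by fun_prop)

theorem E_add (s t : ℝ) : E (s + t) = E s * E t := by
  ext p
  rw [BoundedContinuousFunction.mul_apply, E_apply, E_apply, E_apply, ← Complex.exp_add]
  push_cast
  ring_nf

theorem E_zero : E 0 = 1 := by
  ext p
  rw [E_apply]
  simp

theorem norm_E_apply (t : ℝ) (p : Om) : ‖E t p‖ = Real.exp (-(p.2 : ℝ) * t) := by
  rw [E_apply, Complex.norm_exp]
  congr 1
  simp
  ring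

theorem norm_E_le (t : ℝ) (ht : 0 ≤ t) : ‖E t‖ ≤ 1 := by
  refine (BoundedContinuousFunction.norm_le zero_le_one).mpr ?_
  intro p
  rw [norm_E_apply]
  have := p.2.2.1
  exact Real.exp_le_one_iff.mpr (by nlinarith)

/-- The semigroup of multiplications. -/
noncomputable def TT (t : ℝ) : XX →L[ℂ] XX := ContinuousLinearMap.mul ℂ XX (E t)

theorem TT_apply (t : ℝ) (x : XX) : TT t x = E t * x := rfl

theorem norm_orbit_le (t : ℝ) (ht : 0 < t) : ‖TT t vv‖ ≤ 1 / (2 * Real.sqrt t) := by
  refine (BoundedContinuousFunction.norm_le (by positivity)).mpr ?_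
  intro p
  rw [TT_apply, BoundedContinuousFunction.mul_apply, norm_mul, norm_E_apply, vv_apply,
    Complex.norm_real, Real.norm_eq_abs, abs_of_nonneg (Real.sqrt_nonneg _)]
  have hr := p.2.2.1
  set r : ℝ := (p.2 : ℝ)
  have h1 : 1 + r * t ≤ Real.exp (r * t) := by
    have := Real.add_one_le_exp (r * t)
    linarith
  have h2 : Real.exp (-r * t) = (Real.exp (r * t))⁻¹ := by
    rw [← Real.exp_neg]; ring_nf
  rw [h2, le_div_iff₀ (by positivity)]
  have h3 : Real.sqrt r ^ 2 = r := Real.sq_sqrt hr.le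
  have h4 : Real.sqrt t ^ 2 = t := Real.sq_sqrt ht.le
  have h5 : 2 * (Real.sqrt r * Real.sqrt t) ≤ 1 + r * t := by
    nlinarith [sq_nonneg (Real.sqrt r * Real.sqrt t - 1)]
  have hpos := Real.exp_pos (r * t)
  rw [inv_mul_eq_div, div_mul_eq_mul_div, div_le_one hpos]
  nlinarith

theorem integrable_res (a s : ℝ) (ha : 0 < a) :
    IntegrableOn (fun t : ℝ =>
      Complex.exp (-(((a : ℂ) + (s : ℂ) * Complex.I) * (t : ℂ))) • TT t vv) (Set.Ioi 0) := by
  have hcont : Continuous (fun t : ℝ =>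
      Complex.exp (-(((a : ℂ) + (s : ℂ) * Complex.I) * (t : ℂ))) • TT t vv) := by
    have h1 : Continuous (fun t : ℝ => TT t vv) := by
      simp only [TT_apply]
      exact E_cont.mul continuous_const
    have h2 : Continuous (fun t : ℝ =>
        Complex.exp (-(((a : ℂ) + (s : ℂ) * Complex.I) * (t : ℂ)))) := by fun_prop
    exact h2.smul h1
  have hdom : IntegrableOn (fun t : ℝ => Real.exp (-a * t)) (Set.Ioi 0) :=
    integrableOn_exp_mul_Ioi (by linarith) 0
  refine Integrable.mono' hdom hcont.aestronglyMeasurable ?_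
  refine (ae_restrict_iff' measurableSet_Ioi).mpr (Eventually.of_forall ?_)
  intro t ht
  have ht' : (0 : ℝ) < t := ht
  rw [norm_smul, Complex.norm_exp]
  have h1 : ‖TT t vv‖ ≤ 1 := by
    rw [TT_apply]
    refine (norm_mul_le _ _).trans ?_
    have h2 := norm_E_le t ht'.le
    have h3 : ‖vv‖ ≤ 1 := BoundedContinuousFunction.norm_ofNormedAddCommGroup_le _ zero_le_one _
    nlinarith [norm_nonneg (E t), norm_nonneg vv]
  have h2 : (-(((a : ℂ) + (s : ℂ) * Complex.I) * (t : ℂ))).re = -a * t := by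
    simp
  rw [h2]
  have := Real.exp_pos (-a * t)
  nlinarith

theorem res_lower (a s : ℝ) (ha : 0 < a) (ha1 : a ≤ 1) (hs : s ∈ Set.Icc (-1:ℝ) 1) :
    1 / (2 * Real.sqrt a) ≤ ‖∫ t in Set.Ioi (0 : ℝ),
      Complex.exp (-(((a : ℂ) + (s : ℂ) * Complex.I) * (t : ℂ))) • TT t vv‖ := by
  let p : Om := (⟨s, hs⟩, ⟨a, ha, ha1⟩)
  refine le_trans ?_ (BoundedContinuousFunction.norm_coe_le_norm _ p)
  have hev := (BoundedContinuousFunction.evalCLM ℂ p).integral_comp_comm (integrable_res a s ha)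
  have hint : (∫ t in Set.Ioi (0 : ℝ),
      Complex.exp (-(((a : ℂ) + (s : ℂ) * Complex.I) * (t : ℂ))) • TT t vv) p =
      ∫ t in Set.Ioi (0 : ℝ), ((Real.sqrt a : ℝ) : ℂ) * Complex.exp ((-(2 * a : ℝ) : ℂ) * (t : ℂ)) := by
    refine Eq.trans hev.symm ?_
    refine integral_congr_ae (Eventually.of_forall ?_)
    intro t
    simp only [BoundedContinuousFunction.evalCLM_apply, BoundedContinuousFunction.smul_apply,
      TT_apply, BoundedContinuousFunction.mul_apply, vv_apply, E_apply, smul_eq_mul]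
    rw [mul_comm (Complex.exp _) ((Real.sqrt _ : ℝ) : ℂ), mul_left_comm, ← Complex.exp_add]
    congr 2
    simp only [p]
    push_cast
    ring
  rw [hint, integral_const_mul, integral_exp_mul_complex_Ioi (by simp [ha])]
  simp only [Complex.ofReal_zero, mul_zero, Complex.exp_zero]
  rw [norm_mul, Complex.norm_real, Real.norm_eq_abs, abs_of_nonneg (Real.sqrt_nonneg _)]
  have : ‖(-1 : ℂ) / (-(2 * a : ℝ) : ℂ)‖ = 1 / (2 * a) := by
    rw [neg_div_neg_eq, norm_div, norm_one, Complex.norm_real, Real.norm_eq_abs,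
      abs_of_pos (by linarith)]
  rw [this]
  have hsq : Real.sqrt a * Real.sqrt a = a := Real.mul_self_sqrt ha.le
  have hsp : 0 < Real.sqrt a := Real.sqrt_pos.mpr ha
  have hfin : Real.sqrt a * (1 / (2 * a)) = 1 / (2 * Real.sqrt a) := by
    have hne := hsp.ne'
    have hane := ha.ne'
    field_simp
    nlinarith
  rw [hfin]

/-- The bounded generator. -/
noncomputable def AA : XX →L[ℂ] XX := ContinuousLinearMap.mul ℂ XX lam

/-- Multiplication as a ring homomorphism. -/
noncomputable def mulHom : XX →+* (XX →L[ℂ] XX) where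
  toFun f := ContinuousLinearMap.mul ℂ XX f
  map_one' := by ext x p; simp
  map_mul' f g := by ext x p; simp [mul_assoc]
  map_zero' := by simp
  map_add' f g := by simp

theorem TT_eq (t : ℝ) : TT t = NormedSpace.exp ((t : ℂ) • AA) := by
  have hc : Continuous mulHom := (ContinuousLinearMap.mul ℂ XX).continuous
  have h := NormedSpace.map_exp mulHom hc ((t : ℂ) • lam)
  have e1 : mulHom (NormedSpace.exp ((t : ℂ) • lam)) = TT t := rfl
  have e2 : mulHom ((t : ℂ) • lam) = (t : ℂ) • AA := by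
    change ContinuousLinearMap.mul ℂ XX ((t : ℂ) • lam) = (t : ℂ) • ContinuousLinearMap.mul ℂ XX lam
    rw [map_smul]
  rw [← e1, h, e2]

/-- There are a complex Banach space, a bounded operator `A` on it that generates a semigroup of contractions, and a
vector `x` whose orbit tends to zero at the rate `1 / (2 √t)`, while `a ∫ ‖R(a + is, A) x‖² ds ≥ 1 / 2` for all `a ∈ (0, 1]`. -/
theorem result : ∃ (X : Type) (_ : NormedAddCommGroup X) (_ : NormedSpace ℂ X) (_ : CompleteSpace X)
    (A : X →L[ℂ] X) (x : X),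
    (∀ t : ℝ, 0 ≤ t → ‖NormedSpace.exp ((t : ℂ) • A)‖ ≤ 1) ∧
    (∀ t : ℝ, 0 < t → ‖NormedSpace.exp ((t : ℂ) • A) x‖ ≤ 1 / (2 * Real.sqrt t)) ∧
    ∀ a : ℝ, 0 < a → a ≤ 1 →
      (2⁻¹ : ENNReal) ≤ ENNReal.ofReal a * resolventIntegral (fun t : ℝ => NormedSpace.exp ((t : ℂ) • A)) x a := by
  refine ⟨XX, inferInstance, inferInstance, inferInstance, AA, vv, ?_, ?_, ?_⟩
  · intro t ht
    rw [← TT_eq]
    refine ContinuousLinearMap.opNorm_le_bound _ zero_le_one fun x => ?_
    rw [TT_apply]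
    refine (norm_mul_le _ _).trans ?_
    exact mul_le_mul_of_nonneg_right (norm_E_le t ht) (norm_nonneg _)
  · intro t ht
    rw [← TT_eq]
    exact norm_orbit_le t ht
  · intro a ha0 ha1
    have hT : (fun t : ℝ => NormedSpace.exp ((t : ℂ) • AA)) = TT := by
      funext t
      exact (TT_eq t).symm
    rw [hT]
    unfold resolventIntegral
    have hbound : ∫⁻ s in Set.Icc (-1:ℝ) 1, ENNReal.ofReal (1 / (4 * a)) ≤
        ∫⁻ s : ℝ,
              ((‖∫ t in Set.Ioi (0 : ℝ),
                  Complex.exp (-(((a : ℂ) + (s : ℂ) * Complex.I) * (t : ℂ))) • TT t vv‖₊ : ENNReal)) ^ 2 := by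
      refine le_trans ?_ (setLIntegral_le_lintegral (Set.Icc (-1:ℝ) 1) _)
      refine setLIntegral_mono' measurableSet_Icc ?_
      intro s hs
      have h1 := res_lower a s ha0 ha1 hs
      have h2 : (1 / (4 * a)) = (1 / (2 * Real.sqrt a)) ^ 2 := by
        have : Real.sqrt a ^ 2 = a := Real.sq_sqrt ha0.le
        rw [div_pow, mul_pow, this]; norm_num
      rw [h2, ENNReal.ofReal_pow (by positivity)]
      refine pow_le_pow_left' ?_ 2
      rw [← enorm_eq_nnnorm, ← ofReal_norm]
      exact ENNReal.ofReal_le_ofReal h1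
    calc (2⁻¹ : ENNReal) = ENNReal.ofReal a * (ENNReal.ofReal (1 / (4 * a)) * ENNReal.ofReal 2) := by
          rw [← ENNReal.ofReal_mul (by positivity), ← ENNReal.ofReal_mul ha0.le]
          have : a * (1 / (4 * a) * 2) = 2⁻¹ := by field_simp; norm_num
          rw [this, ENNReal.ofReal_inv_of_pos (by norm_num)]
          simp
      _ ≤ _ := by
          refine mul_le_mul_right ?_ _
          refine le_trans (le_of_eq ?_) hbound
          rw [setLIntegral_const, Real.volume_Icc]
          norm_num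

end Pool.Agent.Results.MP_ec63c8_an.StableOrbit
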